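import Pool.Agent.Helper316TS.Cut
import Pool.Agent.Helper316TS.Col

/-!
# A `T_6`-snark of girth 6

The graph has 190 vertices. It is obtained from the Petersen graph (the tree `T_2` and a hexagon on
its leaves) by superposition: the edges of the hexagon are replaced by copies of the flower snark
`J_5` minus two vertices (one of them on the only 5-cycle of `J_5`), its vertices by suitable
multipoles with 13 vertices.
-/

set_option autoImplicit false

namespace Pool.Agent.Results.MP_b9c5ac_co.TSixSnarkGirthSix

open Pool.Agent.Helper316TS

/-- There is a snark on 190 vertices of girth 6 with a spanning tree isomorphic to `T_6`. -/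
theorem result : ∃ G : SimpleGraph (Fin 190), Snark G ∧ SpanT G 6 ∧ G.girth = 6 :=
  ⟨G, ⟨G_cubic, G_conn, G_cyc, by rw [G_girth]; norm_num, G_col⟩, spanT, G_girth⟩

end Pool.Agent.Results.MP_b9c5ac_co.TSixSnarkGirthSix
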